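import Pool.Agent.H.MP_40785c_co.B

namespace Pool.Agent.Results.MP_40785c_co.Full

open Finset SimpleGraph

/-- `tree(G)`: the largest size of a vertex set inducing a tree. -/
noncomputable def treeNum {V : Type} (G : SimpleGraph V) : ℕ :=
  sSup {k | ∃ S : Finset V, (G.induce (S : Set V)).IsTree ∧ S.card = k}

open Pool.Agent.H.MP_40785c_co

/-- `tree(G) ≥ 2 rad(G) / δ(G)` for every finite connected graph with at least two vertices. -/
theorem result (V : Type) [Fintype V] [Nontrivial V] (G : SimpleGraph V) [DecidableRel G.Adj]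
    (hG : G.Connected) : 2 * (G.radius.toNat : ℝ) / G.minDegree ≤ treeNum G := by
  classical
  have big : ∀ k, Big G k → k ≤ treeNum G := by
    rintro k ⟨S, h1, h2⟩
    refine h2.trans (le_csSup ⟨Fintype.card V, ?_⟩ ⟨S, h1.isTree, rfl⟩)
    rintro _ ⟨T, -, rfl⟩
    exact card_le_univ T
  set r := G.radius.toNat with hr
  have hecc : ∀ x, ∃ y, r ≤ G.dist x y := fun x => by
    obtain ⟨y, hy⟩ := G.exists_edist_eq_eccent_of_finite x
    refine ⟨y, ?_⟩
    have a1 : G.radius ≤ G.edist x y := hy ▸ G.radius_le_eccent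
    rw [← (hG.preconnected x y).coe_dist_eq_edist] at a1
    exact ENat.toNat_le_of_le_coe a1
  obtain ⟨w, hw⟩ := G.exists_minimal_degree_vertex
  have hpos := hG.preconnected.degree_pos_of_nontrivial w
  have key : 2 * r ≤ treeNum G * G.minDegree := by
    obtain ⟨y, hy⟩ := hecc w
    obtain ⟨g, -, -, hg⟩ := exists_geo hG w y
    have h1 : r + 1 ≤ treeNum G :=
      big _ ⟨_, hg.ip.tr (Nat.succ_pos _) le_rfl, by rw [hg.ip.card le_rfl]; omega⟩
    by_cases hd : G.minDegree = 1
    · rw [hd, mul_one]
      by_cases h2 : 2 ≤ r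
      · obtain ⟨u, hu⟩ := card_eq_one.1 (show (G.neighborFinset w).card = 1 by
          rw [card_neighborFinset_eq_degree, ← hw, hd])
        exact big _ (main r h2 _ V G rfl hG w u
          (fun x hx => by simpa [hu] using (G.mem_neighborFinset w x).2 hx) hecc)
      · omega
    · have : 2 ≤ G.minDegree := by omega
      nlinarith
  rw [div_le_iff₀ (by exact_mod_cast (show 0 < G.minDegree by omega))]
  exact_mod_cast key

end Pool.Agent.Results.MP_40785c_co.Full
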